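import Pool.Agent.OPG.Stmts
import Pool.Agent.OddParity.Final

set_option autoImplicit false

namespace Pool.Agent.OPG.H88

open Finset Pool.Agent.OPG

/-- the sign `(-1) ^ Ω` on the natural numbers -/
noncomputable def sg (n : ℕ) : ℤˣ := (-1) ^ (ArithmeticFunction.cardFactors n)

theorem sg_mul : OM sg := by
  intro a b ha hb
  have ha0 : a ≠ 0 := by rintro rfl; exact absurd ha (by decide)
  have hb0 : b ≠ 0 := by rintro rfl; exact absurd hb (by decide)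
  unfold sg
  rw [ArithmeticFunction.cardFactors_mul ha0 hb0, pow_add]

theorem sg_three : sg 3 = -1 := by
  unfold sg
  rw [ArithmeticFunction.cardFactors_apply_prime Nat.prime_three, pow_one]

theorem sg_iff (n : ℕ) : sg n = -1 ↔ Odd (ArithmeticFunction.cardFactors n) := by
  unfold sg
  constructor
  · intro h
    rw [← Nat.not_even_iff_odd]
    intro he
    rw [he.neg_one_pow] at h
    exact absurd h (by decide)
  · intro h
    exact h.neg_one_pow

theorem part2 (h : FinStmt) (δ : ℝ) (hδ : 0 < δ) (n1 : ℕ) (hn1 : Odd n1) :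
    ∃ k0 : ℕ, ∀ k : ℕ, k0 ≤ k → ∀ f : ℕ → ℤˣ,
    (∀ a b : ℕ, Odd a → Odd b → f (a * b) = f a * f b) → f n1 = -1 → ∀ e : ℤˣ,
    (k : ℝ) ^ (1 - δ) ≤
      (((Ioo ((2 * k - 1) ^ 2) ((2 * k + 1) ^ 2)).filter
        (fun n => Odd n ∧ f n = e)).card : ℝ) := by
  obtain ⟨M0, hM0⟩ := h (min δ 1) n1 (lt_min hδ one_pos) hn1
  refine ⟨max M0 1, ?_⟩
  intro k hk f hf hfn e
  have hk1 : 1 ≤ k := le_trans (le_max_right _ _) hk
  have hkM : M0 ≤ 2 * k := by
    have := le_trans (le_max_left _ _) hk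
    omega
  have hmain := hM0 (2 * k) f e hkM (even_two_mul k) hf hfn
  have hk1' : (1 : ℝ) ≤ k := by exact_mod_cast hk1
  have e1 : (k : ℝ) ^ (1 - δ) ≤ (k : ℝ) ^ (1 - min δ 1) :=
    Real.rpow_le_rpow_of_exponent_le hk1' (by have := min_le_left δ 1; linarith)
  have e2 : (k : ℝ) ^ (1 - min δ 1) ≤ ((2 * k : ℕ) : ℝ) ^ (1 - min δ 1) := by
    apply Real.rpow_le_rpow (by positivity)
    · push_cast
      linarith
    · have := min_le_right δ 1
      linarith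
  exact (e1.trans e2).trans hmain

/-- RES -/
theorem res (h : FinStmt) : ResStmt := by
  intro δ hδ
  refine ⟨?_, fun n1 hn1 => part2 h δ hδ n1 hn1⟩
  obtain ⟨k0, hk0⟩ := part2 h δ hδ 3 (by decide)
  refine ⟨1 / ((k0 : ℝ) + 1), by positivity, ?_⟩
  intro k hk
  have hk1' : (1 : ℝ) ≤ k := by exact_mod_cast hk
  have hc1 : 1 / ((k0 : ℝ) + 1) ≤ 1 := by
    rw [div_le_one (by positivity)]
    have : (0 : ℝ) ≤ k0 := Nat.cast_nonneg _
    linarith
  have hp : (0 : ℝ) ≤ (k : ℝ) ^ (1 - δ) := by positivity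
  by_cases hlt : k0 ≤ k
  · have h1 := hk0 k hlt sg sg_mul sg_three (-1)
    have h2 : (Ioo ((2 * k - 1) ^ 2) ((2 * k + 1) ^ 2)).filter (fun n => Odd n ∧ sg n = -1) =
        (Ioo ((2 * k - 1) ^ 2) ((2 * k + 1) ^ 2)).filter
          (fun n => Odd n ∧ Odd (ArithmeticFunction.cardFactors n)) := by
      apply filter_congr
      intro n _
      rw [sg_iff]
    rw [h2] at h1
    calc 1 / ((k0 : ℝ) + 1) * (k : ℝ) ^ (1 - δ) ≤ 1 * (k : ℝ) ^ (1 - δ) :=
          mul_le_mul_of_nonneg_right hc1 hp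
      _ = (k : ℝ) ^ (1 - δ) := one_mul _
      _ ≤ _ := h1
  · have hlt' : k < k0 := not_le.mp hlt
    obtain ⟨n, hn1, hn2, hn3, hn4⟩ := Pool.Agent.OddParity.claim_all k hk
    have hpos : 1 ≤ ((Ioo ((2 * k - 1) ^ 2) ((2 * k + 1) ^ 2)).filter
          (fun n => Odd n ∧ Odd (ArithmeticFunction.cardFactors n))).card :=
      card_pos.mpr ⟨n, mem_filter.mpr ⟨mem_Ioo.mpr ⟨hn2, hn3⟩, hn1, hn4⟩⟩
    have h3 : (k : ℝ) ^ (1 - δ) ≤ k := by
      calc (k : ℝ) ^ (1 - δ) ≤ (k : ℝ) ^ (1 : ℝ) :=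
            Real.rpow_le_rpow_of_exponent_le hk1' (by linarith)
        _ = k := Real.rpow_one _
    have h4 : (k : ℝ) ≤ (k0 : ℝ) + 1 := by
      have : (k : ℝ) < k0 := by exact_mod_cast hlt'
      linarith
    calc 1 / ((k0 : ℝ) + 1) * (k : ℝ) ^ (1 - δ) ≤ 1 / ((k0 : ℝ) + 1) * ((k0 : ℝ) + 1) :=
          mul_le_mul_of_nonneg_left (h3.trans h4) (by positivity)
      _ = 1 := by field_simp
      _ ≤ _ := by exact_mod_cast hpos

end Pool.Agent.OPG.H88
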